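import Pool.Agent.X145.Ulam.Proc

set_option autoImplicit false
open MeasureTheory ProbabilityTheory Filter Topology

namespace Pool.Agent.X145.Ulam

/-- the solution of the comparison recurrence -/
noncomputable def vv (a : ℝ) (n : ℕ) : ℝ :=
  ∑ k ∈ Finset.range (n + 1), (n.choose k : ℝ) * (a ^ k / (k.factorial : ℝ))

theorem vv_ext (a : ℝ) (n N : ℕ) (h : n ≤ N) :
    vv a n = ∑ k ∈ Finset.range (N + 1), (n.choose k : ℝ) * (a ^ k / (k.factorial : ℝ)) := by
  unfold vv
  refine Finset.sum_subset (Finset.range_mono (by omega)) fun k _ hk => ?_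
  rw [Finset.mem_range, not_lt] at hk
  rw [Nat.choose_eq_zero_of_lt (by omega)]
  simp

theorem hockey (k n : ℕ) : ∑ i ∈ Finset.range (n + 1), i.choose k = (n + 1).choose (k + 1) := by
  induction n with
  | zero =>
    cases k with
    | zero => simp
    | succ k =>
      rw [Nat.choose_eq_zero_of_lt (by omega : 0 + 1 < k + 1 + 1)]
      simp
  | succ n ih =>
    rw [Finset.sum_range_succ, ih, Nat.choose_succ_succ (n + 1) k, add_comm]

theorem vv_step (a : ℝ) (n : ℕ) :
    vv a n + a / ((n : ℝ) + 1) * ∑ i ∈ Finset.range (n + 1), vv a i = vv a (n + 1) := by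
  have h1 : ∑ i ∈ Finset.range (n + 1), vv a i =
      ∑ k ∈ Finset.range (n + 1), (((n + 1).choose (k + 1) : ℕ) : ℝ) * (a ^ k / (k.factorial : ℝ)) := by
    rw [Finset.sum_congr rfl fun i hi => vv_ext a i n (by have := Finset.mem_range.1 hi; omega),
      Finset.sum_comm]
    refine Finset.sum_congr rfl fun k _ => ?_
    rw [← Finset.sum_mul]
    congr 1
    have h := hockey k n
    exact_mod_cast h
  rw [h1, vv_ext a n (n + 1) (by omega)]
  unfold vv
  rw [Finset.sum_range_succ' _ (n + 1), Finset.sum_range_succ' _ (n + 1), Finset.mul_sum]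
  have h2 : ∀ k ∈ Finset.range (n + 1), ((((n + 1).choose (k + 1) : ℕ)) : ℝ) * (a ^ (k + 1) / ((k + 1).factorial : ℝ)) =
      ((n.choose (k + 1) : ℕ) : ℝ) * (a ^ (k + 1) / ((k + 1).factorial : ℝ)) +
      a / ((n : ℝ) + 1) * ((((n + 1).choose (k + 1) : ℕ) : ℝ) * (a ^ k / (k.factorial : ℝ))) := by
    intro k _
    have h3 : (((n + 1).choose (k + 1) : ℕ) : ℝ) = (n.choose k : ℝ) + (n.choose (k + 1) : ℝ) := by
      exact_mod_cast Nat.choose_succ_succ n k
    have h4 : (((n + 1).choose (k + 1) : ℕ) : ℝ) * ((k : ℝ) + 1) = ((n : ℝ) + 1) * (n.choose k : ℝ) := by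
      exact_mod_cast (Nat.add_one_mul_choose_eq n k).symm
    have h5 : (((k + 1).factorial : ℕ) : ℝ) = ((k : ℝ) + 1) * (k.factorial : ℝ) := by
      rw [Nat.factorial_succ]
      push_cast
      ring
    have h6 : (0 : ℝ) < (n : ℝ) + 1 := by positivity
    have h7 : (0 : ℝ) < (k : ℝ) + 1 := by positivity
    have h8 : (0 : ℝ) < (k.factorial : ℝ) := by exact_mod_cast k.factorial_pos
    have h9 : a / ((n : ℝ) + 1) * ((((n + 1).choose (k + 1) : ℕ) : ℝ) * (a ^ k / (k.factorial : ℝ))) =
        (n.choose k : ℝ) * (a ^ (k + 1) / ((k + 1).factorial : ℝ)) := by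
      rw [h5, pow_succ]
      have e : (((n + 1).choose (k + 1) : ℕ) : ℝ) = ((n : ℝ) + 1) * (n.choose k : ℝ) / ((k : ℝ) + 1) := by
        rw [← h4]
        field_simp
      rw [e]
      field_simp
    rw [h9, h3]
    ring
  rw [Finset.sum_congr rfl h2, Finset.sum_add_distrib]
  simp only [Nat.choose_zero_right, Nat.cast_one, pow_zero, Nat.factorial_zero, div_one, mul_one]
  ring

theorem moment_ge_vv (m n : ℕ) : vv ((2 : ℝ) ^ m - 1) n ≤ moment m n := by
  have ha : (0 : ℝ) ≤ (2 : ℝ) ^ m - 1 := by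
    have : (1 : ℝ) ≤ (2 : ℝ) ^ m := one_le_pow₀ (by norm_num)
    linarith
  induction n using Nat.strong_induction_on with
  | _ n ih =>
    cases n with
    | zero =>
      rw [moment_zero]
      unfold vv
      simp
    | succ n =>
      rw [← vv_step]
      refine le_trans ?_ (moment_lower m n)
      refine add_le_add (ih n (Nat.lt_succ_self n)) (mul_le_mul_of_nonneg_left ?_ (by positivity))
      exact Finset.sum_le_sum fun i hi => ih i (Finset.mem_range.1 hi)

theorem factorial_le (k : ℕ) (hk : 1 ≤ k) :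
    Real.log (k.factorial : ℝ) ≤ 1 + Real.log k / 2 + k * Real.log k - k := by
  obtain ⟨j, rfl⟩ : ∃ j, k = j + 1 := ⟨k - 1, by omega⟩
  have h1 : Real.log (Stirling.stirlingSeq (j + 1)) ≤ Real.log (Stirling.stirlingSeq 1) :=
    Stirling.log_stirlingSeq'_antitone (Nat.zero_le j)
  rw [Stirling.stirlingSeq_one, Real.log_div (Real.exp_pos 1).ne' (by positivity), Real.log_exp,
    Real.log_sqrt (by norm_num), Stirling.log_stirlingSeq_formula,
    Real.log_div (by positivity) (Real.exp_pos 1).ne', Real.log_exp,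
    Real.log_mul (by norm_num) (by positivity)] at h1
  nlinarith [h1]

theorem vv_pos (a : ℝ) (ha : 0 ≤ a) (n : ℕ) : 0 < vv a n := by
  unfold vv
  rw [Finset.sum_range_succ']
  have : 0 ≤ ∑ k ∈ Finset.range n, ((n.choose (k + 1) : ℕ) : ℝ) * (a ^ (k + 1) / ((k + 1).factorial : ℝ)) :=
    Finset.sum_nonneg fun k _ => by positivity
  simp only [Nat.choose_zero_right, Nat.cast_one, pow_zero, Nat.factorial_zero, div_one, mul_one]
  linarith

/-- one term of the sum -/
theorem log_vv_ge (a : ℝ) (ha : 0 < a) (n k : ℕ) (hk : 1 ≤ k) (hkn : k < n) :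
    k * Real.log a + k * Real.log ((n : ℝ) - k) - 2 * (1 + Real.log k / 2 + k * Real.log k - k) ≤
      Real.log (vv a n) := by
  have hf := factorial_le k hk
  have h1 : (n.choose k : ℝ) * (a ^ k / (k.factorial : ℝ)) ≤ vv a n := by
    unfold vv
    exact Finset.single_le_sum (f := fun k => (n.choose k : ℝ) * (a ^ k / (k.factorial : ℝ)))
      (fun k _ => by positivity) (Finset.mem_range.2 (by omega))
  have hd : (0 : ℝ) < (n : ℝ) - k := by
    have : (k : ℝ) < n := by exact_mod_cast hkn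
    linarith
  have h2 : ((n : ℝ) - k) ^ k / (k.factorial : ℝ) ≤ (n.choose k : ℝ) := by
    have h3 : (n - k : ℕ) ^ k ≤ n.descFactorial k := by
      have := Nat.pow_sub_le_descFactorial n k
      refine le_trans (Nat.pow_le_pow_left (by omega) k) this
    rw [div_le_iff₀ (by positivity)]
    have h4 : (n.descFactorial k : ℝ) = (n.choose k : ℝ) * (k.factorial : ℝ) := by
      rw [Nat.descFactorial_eq_factorial_mul_choose]
      push_cast
      ring
    rw [← h4, ← Nat.cast_sub hkn.le]
    exact_mod_cast h3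
  have hfp : (0 : ℝ) < (k.factorial : ℝ) := by exact_mod_cast k.factorial_pos
  have h5 : ((n : ℝ) - k) ^ k / (k.factorial : ℝ) * (a ^ k / (k.factorial : ℝ)) ≤ vv a n :=
    le_trans (mul_le_mul_of_nonneg_right h2 (by positivity)) h1
  have h6 := Real.log_le_log (by positivity) h5
  rw [Real.log_mul (by positivity) (by positivity), Real.log_div (by positivity) hfp.ne',
    Real.log_div (by positivity) hfp.ne', Real.log_pow, Real.log_pow] at h6
  linarith

/-- quantitative lower bound -/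
theorem log_vv_ge' (a : ℝ) (ha : 1 ≤ a) (n : ℕ) (hn : 16 * a ≤ n) :
    2 * Real.sqrt a * Real.sqrt n - (2 * a + 4 + Real.log (Real.sqrt a * Real.sqrt n)) ≤ Real.log (vv a n) := by
  set x := Real.sqrt a * Real.sqrt n with hx
  have hn0 : (0 : ℝ) < n := by linarith
  have hx1 : 1 ≤ x := by
    have h1 : 1 ≤ Real.sqrt a := Real.one_le_sqrt.2 ha
    have h2 : 1 ≤ Real.sqrt n := Real.one_le_sqrt.2 (by linarith)
    nlinarith
  have hxx : x ^ 2 = a * n := by
    rw [hx, mul_pow, Real.sq_sqrt (by linarith), Real.sq_sqrt hn0.le]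
  have hxn : x ≤ n / 4 := by
    refine abs_le_of_sq_le_sq' ?_ (by positivity) |>.2
    rw [hxx]
    nlinarith
  set k := ⌊x⌋₊ with hk
  have hk1 : 1 ≤ k := Nat.le_floor (by simpa using hx1)
  have hkx : (k : ℝ) ≤ x := Nat.floor_le (by linarith)
  have hxk : x < (k : ℝ) + 1 := Nat.lt_floor_add_one x
  have hk1' : (1 : ℝ) ≤ k := by exact_mod_cast hk1
  have hkn : k < n := by
    have : (k : ℝ) < n := by linarith
    exact_mod_cast this
  have h1 := log_vv_ge a (by linarith) n k hk1 hkn
  have h2 : Real.log k ≤ Real.log x := Real.log_le_log (by linarith) hkx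
  have hd : (0 : ℝ) < (n : ℝ) - k := by linarith
  have h3 : -(2 * k / n) ≤ Real.log (((n : ℝ) - k) / n) := by
    have h4 := Real.one_sub_inv_le_log_of_pos (show 0 < ((n : ℝ) - k) / n by positivity)
    refine le_trans ?_ h4
    rw [inv_div]
    have h5 : 1 - (n : ℝ) / (n - k) = -(k / (n - k)) := by
      field_simp
      ring
    rw [h5, neg_le_neg_iff, div_le_div_iff₀ hd hn0]
    nlinarith
  have h4 : Real.log (((n : ℝ) - k) / n) = Real.log ((n : ℝ) - k) - Real.log n :=
    Real.log_div hd.ne' hn0.ne'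
  have h5 : 2 * Real.log x = Real.log a + Real.log n := by
    rw [hx, Real.log_mul (by positivity) (by positivity), Real.log_sqrt (by linarith),
      Real.log_sqrt hn0.le]
    ring
  have h6 : (k : ℝ) * (2 * k / n) ≤ 2 * a := by
    rw [← mul_div_assoc, div_le_iff₀ hn0]
    nlinarith
  have h7 : (k : ℝ) * Real.log ((n : ℝ) - k) ≥ k * Real.log n - 2 * a := by
    have : Real.log ((n : ℝ) - k) ≥ Real.log n - 2 * k / n := by linarith
    nlinarith
  have h8 : (k : ℝ) * Real.log k ≤ k * Real.log x := mul_le_mul_of_nonneg_left h2 (by linarith)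
  have h9 : (k : ℝ) * (2 * Real.log x) = k * (Real.log a + Real.log n) := by rw [h5]
  have h10 : 2 * Real.sqrt a * Real.sqrt n = 2 * x := by rw [hx]; ring
  rw [h10]
  nlinarith

theorem tendsto_log_div (c : ℝ) (hc : 0 < c) (C : ℝ) (A : ℝ) :
    Tendsto (fun n : ℕ => (A * Real.sqrt n - (C + Real.log (c * Real.sqrt n))) / Real.sqrt n)
      atTop (𝓝 A) := by
  have hs : Tendsto (fun n : ℕ => Real.sqrt (n : ℝ)) atTop atTop :=
    Real.tendsto_sqrt_atTop.comp tendsto_natCast_atTop_atTop
  have h1 : Tendsto (fun n : ℕ => c * Real.sqrt (n : ℝ)) atTop atTop :=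
    hs.const_mul_atTop hc
  have h2 : Tendsto (fun n : ℕ => Real.log (c * Real.sqrt n) / (c * Real.sqrt n)) atTop (𝓝 0) :=
    (Real.isLittleO_log_id_atTop.tendsto_div_nhds_zero).comp h1
  have h3 : Tendsto (fun n : ℕ => C / Real.sqrt n) atTop (𝓝 0) := hs.const_div_atTop C
  have h4 := (tendsto_const_nhds (x := A)).sub (h3.add (h2.const_mul c))
  simp only [mul_zero, add_zero, sub_zero] at h4
  refine h4.congr' ?_
  filter_upwards [eventually_gt_atTop 0] with n hn
  have hp : 0 < Real.sqrt (n : ℝ) := Real.sqrt_pos.2 (by exact_mod_cast hn)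
  field_simp

/-- the lower bound for the growth constant -/
theorem lower_main (m : ℕ) (hm : 1 ≤ m) (c : ℝ)
    (hc : c < 2 * Real.sqrt ((2 : ℝ) ^ m - 1)) :
    ∀ᶠ n : ℕ in atTop, c ≤ Real.log (moment m n) / Real.sqrt n := by
  have ha : (1 : ℝ) ≤ (2 : ℝ) ^ m - 1 := by
    have : (2 : ℝ) ^ 1 ≤ (2 : ℝ) ^ m := pow_le_pow_right₀ (by norm_num) hm
    linarith
  set a := (2 : ℝ) ^ m - 1 with hadef
  have h1 := tendsto_log_div (Real.sqrt a) (Real.sqrt_pos.2 (by linarith)) (2 * a + 4) (2 * Real.sqrt a)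
  have h2 := h1.eventually (lt_mem_nhds hc)
  filter_upwards [h2, eventually_ge_atTop ⌈16 * a⌉₊, eventually_gt_atTop 0] with n hn hn2 hn3
  refine hn.le.trans (div_le_div_of_nonneg_right ?_ (Real.sqrt_nonneg _))
  refine (log_vv_ge' a ha n ((Nat.le_ceil _).trans (by exact_mod_cast hn2))).trans ?_
  exact Real.log_le_log (vv_pos a (by linarith) n) (moment_ge_vv m n)

end Pool.Agent.X145.Ulam
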