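import Pool.Agent.X145.Ulam.Upper
import Pool.Agent.X145.Ulam.Lower

set_option autoImplicit false
open MeasureTheory ProbabilityTheory Filter Topology

namespace Pool.Agent.X145.Ulam

theorem mSS_le (m : ℕ) : m * SS m ≤ 4 * 2 ^ m := by
  have h1 : SS m ≤ ∑ j ∈ Finset.range m, 2 * (((m + 1).choose (j + 2) : ℕ) : ℝ) / ((m : ℝ) + 1) := by
    unfold SS
    refine Finset.sum_le_sum fun j _ => ?_
    have h2 : (((m + 1).choose (j + 2) : ℕ) : ℝ) * ((j : ℝ) + 2) = ((m : ℝ) + 1) * ((m.choose (j + 1) : ℕ) : ℝ) := by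
      exact_mod_cast (Nat.add_one_mul_choose_eq m (j + 1)).symm
    have hj : (0 : ℝ) < (j : ℝ) + 1 := by positivity
    have hm : (0 : ℝ) < (m : ℝ) + 1 := by positivity
    rw [div_le_div_iff₀ hj hm]
    have h3 : (0 : ℝ) ≤ (((m + 1).choose (j + 2) : ℕ) : ℝ) := by positivity
    have hj0 : (0 : ℝ) ≤ (j : ℝ) := by positivity
    nlinarith
  have h2 : ∑ j ∈ Finset.range m, (((m + 1).choose (j + 2) : ℕ) : ℝ) ≤ 2 ^ (m + 1) := by
    have h3 : ∑ k ∈ Finset.range (m + 2), (((m + 1).choose k : ℕ) : ℝ) = 2 ^ (m + 1) := by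
      have := Nat.sum_range_choose (m + 1)
      exact_mod_cast this
    rw [Finset.sum_range_succ', Finset.sum_range_succ'] at h3
    have h4 : (0 : ℝ) ≤ (((m + 1).choose (0 + 1) : ℕ) : ℝ) := by positivity
    have h5 : (0 : ℝ) ≤ (((m + 1).choose 0 : ℕ) : ℝ) := by positivity
    have h6 : ∑ j ∈ Finset.range m, (((m + 1).choose (j + 2) : ℕ) : ℝ) =
      ∑ j ∈ Finset.range m, (((m + 1).choose (j + 1 + 1) : ℕ) : ℝ) := rfl
    rw [h6]
    linarith
  rw [← Finset.sum_div, ← Finset.mul_sum] at h1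
  have hm : (0 : ℝ) < (m : ℝ) + 1 := by positivity
  rw [le_div_iff₀ hm] at h1
  have hS : 0 ≤ SS m := Finset.sum_nonneg fun j _ => by positivity
  rw [pow_succ] at h2
  nlinarith

theorem upper_num (m : ℕ) (hm : 1 ≤ m) : 4 * (m * SS m) < Real.exp (0.8 * m + 2) := by
  rcases Nat.lt_or_ge m 8 with h8 | h8
  · have he : (1.2214 : ℝ) ≤ Real.exp 0.2 := by
      have h := Real.sum_le_exp_of_nonneg (x := 0.2) (by norm_num) 5
      refine le_trans ?_ h
      norm_num [Finset.sum_range_succ, Nat.factorial]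
    have hk : ∀ k : ℕ, (1.2214 : ℝ) ^ (4 * k + 10) ≤ Real.exp (0.8 * k + 2) := by
      intro k
      have : Real.exp (0.8 * k + 2) = Real.exp 0.2 ^ (4 * k + 10) := by
        rw [← Real.exp_nat_mul]
        congr 1
        push_cast
        ring
      rw [this]
      exact pow_le_pow_left₀ (by norm_num) he _
    refine lt_of_lt_of_le ?_ (hk m)
    unfold SS
    interval_cases m <;> norm_num [Finset.sum_range_succ, Nat.choose]
  · have h1 := mSS_le m
    have h2 : (16 : ℝ) * 2 ^ m < Real.exp (0.8 * m + 2) := by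
      have hl := Real.log_two_lt_d9
      have h3 : (16 : ℝ) * 2 ^ m = Real.exp ((m + 4) * Real.log 2) := by
        rw [show ((m : ℝ) + 4) * Real.log 2 = ((m + 4 : ℕ) : ℝ) * Real.log 2 by push_cast; ring,
          Real.exp_nat_mul, Real.exp_log (by norm_num), pow_add]
        norm_num
        ring
      rw [h3]
      refine Real.exp_lt_exp.2 ?_
      have h8' : (8 : ℝ) ≤ m := by exact_mod_cast h8
      nlinarith
    linarith

theorem lower_num (m : ℕ) (hm : 1 ≤ m) : Real.exp (0.6 * m) < 4 * ((2 : ℝ) ^ m - 1) := by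
  have hl := Real.log_two_gt_d9
  have h1 : (2 : ℝ) ≤ 2 ^ m := by
    calc (2 : ℝ) = 2 ^ 1 := (pow_one _).symm
      _ ≤ _ := pow_le_pow_right₀ (by norm_num) hm
  have h2 : Real.exp (0.6 * m) ≤ (2 : ℝ) ^ m := by
    have h3 : (2 : ℝ) ^ m = Real.exp (m * Real.log 2) := by
      rw [Real.exp_nat_mul, Real.exp_log (by norm_num)]
    rw [h3]
    refine Real.exp_le_exp.2 ?_
    have : (0 : ℝ) ≤ m := by positivity
    nlinarith
  linarith

theorem bounds (m : ℕ) (hm : 1 ≤ m) (c : ℝ)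
    (hc : Tendsto (fun n : ℕ => Real.log (moment m n) / Real.sqrt n) atTop (𝓝 c)) :
    2 * Real.sqrt ((2 : ℝ) ^ m - 1) ≤ c ∧ c ≤ 2 * Real.sqrt (m * SS m) := by
  constructor
  · refine le_of_forall_lt fun x hx => ?_
    obtain ⟨y, hy1, hy2⟩ := exists_between hx
    exact lt_of_lt_of_le hy1 (ge_of_tendsto hc (lower_main m hm y hy2))
  · refine le_of_forall_gt fun x hx => ?_
    obtain ⟨y, hy1, hy2⟩ := exists_between hx
    exact lt_of_le_of_lt (le_of_tendsto hc (upper_main m hm y hy1)) hy2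

theorem exp_half (x : ℝ) : Real.exp x = Real.sqrt (Real.exp (2 * x)) := by
  rw [eq_comm, Real.sqrt_eq_iff_mul_self_eq (Real.exp_pos _).le (Real.exp_pos _).le, ← Real.exp_add]
  congr 1
  ring

theorem two_sqrt (x : ℝ) : 2 * Real.sqrt x = Real.sqrt (4 * x) := by
  rw [Real.sqrt_mul (show (0 : ℝ) ≤ 4 by norm_num) x, show (4 : ℝ) = 2 ^ 2 by norm_num,
    Real.sqrt_sq (by norm_num)]

theorem low_lt (m : ℕ) (hm : 1 ≤ m) : Real.exp (0.3 * m) < 2 * Real.sqrt ((2 : ℝ) ^ m - 1) := by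
  rw [exp_half, two_sqrt, show 2 * (0.3 * (m : ℝ)) = 0.6 * m by ring]
  exact Real.sqrt_lt_sqrt (Real.exp_pos _).le (lower_num m hm)

theorem up_lt (m : ℕ) (hm : 1 ≤ m) : 2 * Real.sqrt (m * SS m) < Real.exp (0.4 * m + 1) := by
  rw [exp_half, two_sqrt, show 2 * (0.4 * (m : ℝ) + 1) = 0.8 * m + 2 by ring]
  refine Real.sqrt_lt_sqrt ?_ (upper_num m hm)
  have := SS_pos m hm
  positivity

theorem main (m : ℕ) (hm : 1 ≤ m) (c : ℝ)
    (hc : Tendsto (fun n : ℕ => Real.log (moment m n) / Real.sqrt n) atTop (𝓝 c)) :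
    0.3 * (m : ℝ) ≤ Real.log c ∧ Real.log c ≤ 0.4 * m + 1 := by
  obtain ⟨h1, h2⟩ := bounds m hm c hc
  have h3 := low_lt m hm
  have h4 := up_lt m hm
  have hc0 : 0 < c := lt_of_lt_of_le ((Real.exp_pos _).trans h3) h1
  constructor
  · rw [Real.le_log_iff_exp_le hc0]
    linarith
  · rw [Real.log_le_iff_le_exp hc0]
    linarith

end Pool.Agent.X145.Ulam
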