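import Mathlib

set_option autoImplicit false
open MeasureTheory ProbabilityTheory Filter Topology
open scoped ENNReal

namespace Pool.Agent.X145.Ulam

/-- The sample space: `u n ∈ {0, …, n}` for every `n`. -/
abbrev Om : Type := ∀ n : ℕ, Fin (n + 1)

/-- The law of a sequence of independent random variables `U(n)`, `U(n)` uniformly distributed on
`{0, …, n}`. -/
noncomputable def law : Measure Om :=
  Measure.infinitePi (fun n : ℕ => (PMF.uniformOfFintype (Fin (n + 1))).toMeasure)

/-- The Ulam-Kac adder: `X₀ = 1`, `X_{n+1} = X_n + X_{U(n)}`. -/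
def adder (u : Om) : ℕ → ℕ
  | 0 => 1
  | n + 1 => adder u n + adder u (u n).val
termination_by n => n
decreasing_by
  · exact Nat.lt_succ_self n
  · exact (u n).isLt

/-- The `m`-th moment `E[X_n^m]`. -/
noncomputable def moment (m n : ℕ) : ℝ := ∫ u, (adder u n : ℝ) ^ m ∂law

instance : IsProbabilityMeasure law := by
  unfold law
  infer_instance

theorem adder_zero (u : Om) : adder u 0 = 1 := by
  rw [adder]

theorem adder_succ (u : Om) (n : ℕ) : adder u (n + 1) = adder u n + adder u (u n).val := by
  rw [adder]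

theorem adder_congr (u v : Om) : ∀ n, (∀ k, k < n → u k = v k) → adder u n = adder v n := by
  intro n
  induction n using Nat.strong_induction_on with
  | _ n ih =>
    cases n with
    | zero => intro _; rw [adder_zero, adder_zero]
    | succ n =>
      intro h
      rw [adder_succ, adder_succ, ih n (Nat.lt_succ_self n) fun k hk => h k (by omega),
        h n (Nat.lt_succ_self n), ih _ (v n).isLt fun k hk => h k (by
          have := (v n).isLt
          omega)]

theorem adder_le_succ (u : Om) (n : ℕ) : adder u n ≤ adder u (n + 1) := by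
  rw [adder_succ]
  exact Nat.le_add_right _ _

theorem adder_mono (u : Om) : Monotone (adder u) := monotone_nat_of_le_succ (adder_le_succ u)

theorem adder_bound (u : Om) (n : ℕ) : adder u n ≤ 2 ^ n := by
  induction n with
  | zero => rw [adder_zero]; norm_num
  | succ n ih =>
    rw [adder_succ, pow_succ]
    have := adder_mono u (Nat.lt_succ_iff.1 (u n).isLt)
    omega

theorem adder_pos (u : Om) (n : ℕ) : 1 ≤ adder u n := by
  have := adder_mono u (Nat.zero_le n)
  rwa [adder_zero] at this

/-- the first `n` coordinates -/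
def res (n : ℕ) (u : Om) : ∀ k : Finset.range n, Fin ((k : ℕ) + 1) := fun k => u k

/-- extension by zero -/
def extd (n : ℕ) (t : ∀ k : Finset.range n, Fin ((k : ℕ) + 1)) : Om :=
  fun k => if h : k ∈ Finset.range n then t ⟨k, h⟩ else 0

theorem adder_res (n : ℕ) (u : Om) (i : ℕ) (hi : i ≤ n) : adder u i = adder (extd n (res n u)) i := by
  refine adder_congr _ _ i fun k hk => ?_
  unfold extd res
  rw [dif_pos (Finset.mem_range.2 (by omega))]

theorem measurable_res (n : ℕ) : Measurable (res n) :=
  measurable_pi_lambda _ fun k => measurable_pi_apply _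

theorem measurable_adder (i : ℕ) : Measurable (fun u : Om => adder u i) := by
  have h : (fun u : Om => adder u i) = (fun t => adder (extd i t) i) ∘ res i := by
    funext u
    exact adder_res i u i le_rfl
  rw [h]
  exact (Measurable.of_discrete (f := fun t => adder (extd i t) i)).comp (measurable_res i)

theorem measurable_adderR (i : ℕ) : Measurable (fun u : Om => (adder u i : ℝ)) :=
  (measurable_from_top (f := fun k : ℕ => (k : ℝ))).comp (measurable_adder i)

theorem indep_step (n : ℕ) : IndepFun (fun u : Om => u n) (res n) law := by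
  have h1 : iIndepFun (fun (k : ℕ) (u : Om) => u k) law := by
    unfold law
    exact iIndepFun_infinitePi (X := fun k => (id : Fin (k + 1) → Fin (k + 1)))
      (fun k => measurable_id)
  have h2 := h1.indepFun_finset {n} (Finset.range n) (by
    rw [Finset.disjoint_singleton_left]
    simp) (fun k => measurable_pi_apply k)
  exact h2.comp
    (φ := fun t : (∀ k : ({n} : Finset ℕ), Fin ((k : ℕ) + 1)) => t ⟨n, Finset.mem_singleton_self n⟩)
    (ψ := fun t : (∀ k : Finset.range n, Fin ((k : ℕ) + 1)) => t)
    (Measurable.of_discrete) measurable_id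

theorem law_coord (n : ℕ) (i : Fin (n + 1)) : law.real {u : Om | u n = i} = 1 / ((n : ℝ) + 1) := by
  have h1 : {u : Om | u n = i} = (fun u : Om => u n) ⁻¹' {i} := rfl
  have h2 : law.map (fun u : Om => u n) = (PMF.uniformOfFintype (Fin (n + 1))).toMeasure := by
    unfold law
    exact Measure.infinitePi_map_eval _ n
  have h3 : law {u : Om | u n = i} = (PMF.uniformOfFintype (Fin (n + 1))).toMeasure {i} := by
    rw [h1, ← h2, Measure.map_apply (measurable_pi_apply n) (measurableSet_singleton i)]
  rw [Measure.real, h3, PMF.toMeasure_apply_singleton _ _ (measurableSet_singleton i),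
    PMF.uniformOfFintype_apply, Fintype.card_fin, ENNReal.toReal_inv, ENNReal.toReal_natCast, one_div]
  push_cast
  rfl

theorem bdd_int (f : Om → ℝ) (hf : Measurable f) (C : ℝ) (hC : ∀ u, |f u| ≤ C) : Integrable f law :=
  Integrable.of_bound hf.aestronglyMeasurable C (Eventually.of_forall fun u => by
    rw [Real.norm_eq_abs]
    exact hC u)

/-- conditioning on the last variable -/
theorem moment_succ (m n : ℕ) : moment m (n + 1) =
    (1 / ((n : ℝ) + 1)) * ∑ i : Fin (n + 1), ∫ u, ((adder u n : ℝ) + (adder u i.val : ℝ)) ^ m ∂law := by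
  unfold moment
  have h1 : ∀ u : Om, (adder u (n + 1) : ℝ) ^ m =
      ∑ i : Fin (n + 1), (Set.indicator {u : Om | u n = i} (fun _ => (1 : ℝ)) u) *
        ((adder u n : ℝ) + (adder u i.val : ℝ)) ^ m := by
    intro u
    rw [Finset.sum_eq_single (u n)]
    · rw [adder_succ, Set.indicator_of_mem (show u ∈ {w : Om | w n = u n} from rfl)]
      push_cast
      ring
    · intro i _ hi
      rw [Set.indicator_of_notMem (show u ∉ {w : Om | w n = i} from fun h => hi (Eq.symm h)), zero_mul]
    · intro h
      exact absurd (Finset.mem_univ _) h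
  have hms : ∀ i : Fin (n + 1), MeasurableSet {u : Om | u n = i} := fun i => by
    show MeasurableSet ((fun u : Om => u n) ⁻¹' {i})
    exact (measurable_pi_apply (X := fun k : ℕ => Fin (k + 1)) n) (measurableSet_singleton i)
  have hbd : ∀ i : Fin (n + 1), ∀ u : Om, |((adder u n : ℝ) + (adder u i.val : ℝ)) ^ m| ≤ (2 * 2 ^ n) ^ m := by
    intro i u
    have h2 : (adder u n : ℝ) ≤ 2 ^ n := by exact_mod_cast adder_bound u n
    have h3 : (adder u i.val : ℝ) ≤ adder u n := by
      exact_mod_cast adder_mono u (Nat.lt_succ_iff.1 i.isLt)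
    rw [abs_of_nonneg (by positivity)]
    exact pow_le_pow_left₀ (by positivity) (by linarith) m
  rw [integral_congr_ae (Eventually.of_forall h1), integral_finset_sum]
  · rw [Finset.mul_sum]
    refine Finset.sum_congr rfl fun i _ => ?_
    have hind : IndepFun (fun u : Om => Set.indicator {u : Om | u n = i} (fun _ => (1 : ℝ)) u)
        (fun u : Om => ((adder u n : ℝ) + (adder u i.val : ℝ)) ^ m) law := by
      have h4 := (indep_step n).comp
        (φ := fun x : Fin (n + 1) => if x = i then (1 : ℝ) else 0)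
        (ψ := fun t => ((adder (extd n t) n : ℝ) + (adder (extd n t) i.val : ℝ)) ^ m)
        Measurable.of_discrete Measurable.of_discrete
      refine h4.congr ?_ ?_
      · refine Eventually.of_forall fun u => ?_
        simp only [Function.comp_apply, Set.indicator_apply, Set.mem_setOf_eq]
      · refine Eventually.of_forall fun u => ?_
        simp only [Function.comp_apply]
        rw [← adder_res n u n le_rfl, ← adder_res n u i.val (Nat.lt_succ_iff.1 i.isLt)]
    rw [hind.integral_fun_mul_eq_mul_integral]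
    · congr 1
      rw [integral_indicator_const _ (hms i), law_coord]
      simp
    · exact ((measurable_const.indicator (hms i))).aestronglyMeasurable
    · exact (((measurable_adderR n).add (measurable_adderR i.val)).pow_const m).aestronglyMeasurable
  · intro i _
    refine bdd_int _ ((measurable_const.indicator (hms i)).mul
      (((measurable_adderR n).add (measurable_adderR i.val)).pow_const m)) ((2 * 2 ^ n) ^ m) fun u => ?_
    rw [abs_mul]
    have h5 : |Set.indicator {u : Om | u n = i} (fun _ => (1 : ℝ)) u| ≤ 1 := by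
      by_cases h : u ∈ {u : Om | u n = i}
      · rw [Set.indicator_of_mem h]
        norm_num
      · rw [Set.indicator_of_notMem h]
        norm_num
    calc _ ≤ 1 * (2 * 2 ^ n) ^ m := mul_le_mul h5 (hbd i u) (abs_nonneg _) (by norm_num)
      _ = _ := one_mul _

theorem int_pow (m i : ℕ) : Integrable (fun u : Om => (adder u i : ℝ) ^ m) law := by
  refine bdd_int _ ((measurable_adderR i).pow_const m) ((2 ^ i) ^ m) fun u => ?_
  rw [abs_of_nonneg (by positivity)]
  exact pow_le_pow_left₀ (by positivity) (by exact_mod_cast adder_bound u i) m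

theorem int_sum_pow (m n i : ℕ) :
    Integrable (fun u : Om => ((adder u n : ℝ) + (adder u i : ℝ)) ^ m) law := by
  refine bdd_int _ (((measurable_adderR n).add (measurable_adderR i)).pow_const m)
    ((2 ^ n + 2 ^ i) ^ m) fun u => ?_
  rw [abs_of_nonneg (by positivity)]
  exact pow_le_pow_left₀ (by positivity)
    (add_le_add (by exact_mod_cast adder_bound u n) (by exact_mod_cast adder_bound u i)) m

theorem moment_zero (m : ℕ) : moment m 0 = 1 := by
  unfold moment
  simp [adder_zero]

theorem moment_ge_one (m n : ℕ) : 1 ≤ moment m n := by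
  unfold moment
  have h1 : ∫ _u : Om, (1 : ℝ) ∂law ≤ ∫ u, (adder u n : ℝ) ^ m ∂law := by
    refine integral_mono (integrable_const _) (int_pow m n) fun u => ?_
    have : (1 : ℝ) ≤ adder u n := by exact_mod_cast adder_pos u n
    exact one_le_pow₀ this
  simpa using h1

/-- elementary inequality -/
theorem add_pow_ge (x y : ℝ) (hy : 0 ≤ y) (hxy : y ≤ x) (m : ℕ) :
    x ^ m + (2 ^ m - 1) * y ^ m ≤ (x + y) ^ m := by
  rw [add_comm x y, add_pow]
  rw [Finset.sum_range_succ' ]
  simp only [pow_zero, Nat.sub_zero, one_mul, Nat.choose_zero_right, Nat.cast_one, mul_one]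
  have h1 : (∑ k ∈ Finset.range m, y ^ m * ((m.choose (k + 1) : ℕ) : ℝ)) ≤
      ∑ k ∈ Finset.range m, y ^ (k + 1) * x ^ (m - (k + 1)) * ((m.choose (k + 1) : ℕ) : ℝ) := by
    refine Finset.sum_le_sum fun k hk => ?_
    have hk' := Finset.mem_range.1 hk
    refine mul_le_mul_of_nonneg_right ?_ (by positivity)
    calc y ^ m = y ^ (k + 1) * y ^ (m - (k + 1)) := by
          rw [← pow_add]
          congr 1
          omega
      _ ≤ _ := mul_le_mul_of_nonneg_left (pow_le_pow_left₀ hy hxy _) (by positivity)
  have h2 : (∑ k ∈ Finset.range m, y ^ m * ((m.choose (k + 1) : ℕ) : ℝ)) = (2 ^ m - 1) * y ^ m := by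
    rw [← Finset.mul_sum]
    have h3 : ∑ k ∈ Finset.range (m + 1), ((m.choose k : ℕ) : ℝ) = 2 ^ m := by
      have := Nat.sum_range_choose m
      exact_mod_cast this
    rw [Finset.sum_range_succ'] at h3
    simp only [Nat.choose_zero_right, Nat.cast_one] at h3
    have h4 : ∑ k ∈ Finset.range m, ((m.choose (k + 1) : ℕ) : ℝ) = 2 ^ m - 1 := by linarith
    rw [h4]
    ring
  linarith

/-- the lower recurrence -/
theorem moment_lower (m n : ℕ) : moment m n +
    ((2 : ℝ) ^ m - 1) / ((n : ℝ) + 1) * ∑ i ∈ Finset.range (n + 1), moment m i ≤ moment m (n + 1) := by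
  rw [moment_succ]
  have h1 : ∀ i : Fin (n + 1), moment m n + ((2 : ℝ) ^ m - 1) * moment m i.val ≤
      ∫ u, ((adder u n : ℝ) + (adder u i.val : ℝ)) ^ m ∂law := by
    intro i
    have h2 : moment m n + ((2 : ℝ) ^ m - 1) * moment m i.val =
        ∫ u, ((adder u n : ℝ) ^ m + ((2 : ℝ) ^ m - 1) * (adder u i.val : ℝ) ^ m) ∂law := by
      rw [integral_add (int_pow m n) ((int_pow m i.val).const_mul _), integral_const_mul]
      rfl
    rw [h2]
    refine integral_mono ((int_pow m n).add ((int_pow m i.val).const_mul _)) (int_sum_pow m n i.val)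
      fun u => ?_
    refine add_pow_ge _ _ (by positivity) ?_ m
    exact_mod_cast adder_mono u (Nat.lt_succ_iff.1 i.isLt)
  have h3 := Finset.sum_le_sum fun i (_ : i ∈ (Finset.univ : Finset (Fin (n + 1)))) => h1 i
  rw [Finset.sum_add_distrib, Finset.sum_const, Finset.card_univ, Fintype.card_fin, nsmul_eq_mul,
    ← Finset.mul_sum] at h3
  rw [Finset.sum_range (fun i => moment m i)]
  have hn : (0 : ℝ) < (n : ℝ) + 1 := by positivity
  have h4 := mul_le_mul_of_nonneg_left h3 (by positivity : 0 ≤ 1 / ((n : ℝ) + 1))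
  refine le_trans (le_of_eq ?_) h4
  push_cast
  field_simp

/-- the `m`-th norm -/
noncomputable def nrm (m n : ℕ) : ℝ := moment m n ^ (1 / (m : ℝ))

theorem nrm_pow (m n : ℕ) (hm : 0 < m) : nrm m n ^ m = moment m n := by
  unfold nrm
  have h := moment_ge_one m n
  rw [← Real.rpow_natCast, ← Real.rpow_mul (by linarith), one_div_mul_cancel (by positivity),
    Real.rpow_one]

theorem nrm_nonneg (m n : ℕ) : 0 ≤ nrm m n := by
  unfold nrm
  have h := moment_ge_one m n
  positivity

/-- Minkowski -/
theorem minkowski (m n i : ℕ) (hm : 0 < m) :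
    ∫ u, ((adder u n : ℝ) + (adder u i : ℝ)) ^ m ∂law ≤ (nrm m n + nrm m i) ^ m := by
  have hm1 : (1 : ℝ≥0∞) ≤ (m : ℝ≥0∞) := by exact_mod_cast hm
  have hmt : (m : ℝ≥0∞) ≠ ⊤ := ENNReal.natCast_ne_top m
  have hm0 : (m : ℝ≥0∞) ≠ 0 := by exact_mod_cast hm.ne'
  have hbd : ∀ k, MemLp (fun u : Om => (adder u k : ℝ)) (m : ℝ≥0∞) law := by
    intro k
    refine MemLp.of_bound (measurable_adderR k).aestronglyMeasurable (2 ^ k) (Eventually.of_forall fun u => ?_)
    rw [Real.norm_of_nonneg (by positivity)]
    exact_mod_cast adder_bound u k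
  have hnorm : ∀ f : Om → ℝ, (∀ u, 0 ≤ f u) → MemLp f (m : ℝ≥0∞) law →
      eLpNorm f (m : ℝ≥0∞) law = ENNReal.ofReal ((∫ u, f u ^ m ∂law) ^ (1 / (m : ℝ))) := by
    intro f hf hfm
    rw [hfm.eLpNorm_eq_integral_rpow_norm hm0 hmt]
    simp only [ENNReal.toReal_natCast, one_div]
    congr 2
    refine integral_congr_ae (Eventually.of_forall fun u => ?_)
    simp only
    rw [Real.norm_of_nonneg (hf u), Real.rpow_natCast]
  have h1 := eLpNorm_add_le (hbd n).aestronglyMeasurable (hbd i).aestronglyMeasurable hm1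
  have e1 := hnorm (fun u => (adder u n : ℝ)) (fun u => by positivity) (hbd n)
  have e2 := hnorm (fun u => (adder u i : ℝ)) (fun u => by positivity) (hbd i)
  have e3 := hnorm ((fun u : Om => (adder u n : ℝ)) + fun u : Om => (adder u i : ℝ))
    (fun u => by simp only [Pi.add_apply]; positivity) ((hbd n).add (hbd i))
  rw [e1, e2, e3, ← ENNReal.ofReal_add (by positivity) (by positivity)] at h1
  have hpos : 0 ≤ (∫ u, (adder u n : ℝ) ^ m ∂law) ^ (1 / (m : ℝ)) +
      (∫ u, (adder u i : ℝ) ^ m ∂law) ^ (1 / (m : ℝ)) := by positivity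
  rw [ENNReal.ofReal_le_ofReal_iff hpos] at h1
  have hI : 0 ≤ ∫ u, ((adder u n : ℝ) + (adder u i : ℝ)) ^ m ∂law :=
    integral_nonneg fun u => by positivity
  have h2 : (∫ u, ((adder u n : ℝ) + (adder u i : ℝ)) ^ m ∂law) ^ (1 / (m : ℝ)) ≤ nrm m n + nrm m i := h1
  calc ∫ u, ((adder u n : ℝ) + (adder u i : ℝ)) ^ m ∂law
      = ((∫ u, ((adder u n : ℝ) + (adder u i : ℝ)) ^ m ∂law) ^ (1 / (m : ℝ))) ^ m := by
        rw [← Real.rpow_natCast, ← Real.rpow_mul hI, one_div_mul_cancel (by positivity), Real.rpow_one]
    _ ≤ _ := pow_le_pow_left₀ (by positivity) h2 m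

/-- the upper recurrence -/
theorem moment_upper (m n : ℕ) (hm : 0 < m) : nrm m (n + 1) ^ m ≤
    (1 / ((n : ℝ) + 1)) * ∑ i ∈ Finset.range (n + 1), (nrm m n + nrm m i) ^ m := by
  rw [nrm_pow m (n + 1) hm, moment_succ, Finset.sum_range (fun i => (nrm m n + nrm m i) ^ m)]
  exact mul_le_mul_of_nonneg_left (Finset.sum_le_sum fun i _ => minkowski m n i.val hm) (by positivity)

end Pool.Agent.X145.Ulam
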