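import Pool.Agent.X145.Ulam.Proc

set_option autoImplicit false
open MeasureTheory ProbabilityTheory Filter Topology

namespace Pool.Agent.X145.Ulam

/-- `S_m = ∑_{j=1}^m C(m,j)/j` -/
noncomputable def SS (m : ℕ) : ℝ := ∑ j ∈ Finset.range m, ((m.choose (j + 1) : ℕ) : ℝ) / ((j : ℝ) + 1)

theorem sum_exp_sqrt (β : ℝ) (hβ : 0 < β) (n : ℕ) :
    ∑ i ∈ Finset.range (n + 1), Real.exp (β * Real.sqrt i) ≤
      2 / β * (Real.sqrt ((n : ℝ) + 1) * Real.exp (β * Real.sqrt ((n : ℝ) + 1))) := by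
  induction n with
  | zero =>
    simp only [zero_add, Finset.range_one, Finset.sum_singleton, Nat.cast_zero, Real.sqrt_zero,
      mul_zero, Real.exp_zero, Real.sqrt_one, mul_one, one_mul]
    have h1 := Real.add_one_le_exp β
    rw [div_mul_eq_mul_div, le_div_iff₀ hβ]
    linarith
  | succ n ih =>
    rw [Finset.sum_range_succ]
    set s := Real.sqrt (((n + 1 : ℕ) : ℝ)) with hs
    have hs' : Real.sqrt ((n : ℝ) + 1) = s := by rw [hs]; push_cast; rfl
    rw [hs'] at ih
    set t := Real.sqrt (((n + 1 : ℕ) : ℝ) + 1) with ht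
    have hs0 : 0 ≤ s := Real.sqrt_nonneg _
    have hss : s ^ 2 = (n : ℝ) + 1 := by
      rw [hs, Real.sq_sqrt (by positivity)]; push_cast; rfl
    have htt : t ^ 2 = (n : ℝ) + 2 := by
      rw [ht, Real.sq_sqrt (by positivity)]; push_cast; ring
    have hst : s ≤ t := Real.sqrt_le_sqrt (by linarith)
    have ht0 : 0 < t := by
      have : 0 < t ^ 2 := by rw [htt]; positivity
      nlinarith
    have h1 : Real.exp (β * t) = Real.exp (β * s) * Real.exp (β * (t - s)) := by
      rw [← Real.exp_add]; congr 1; ring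
    have h2 := Real.add_one_le_exp (β * (t - s))
    have hE := Real.exp_pos (β * s)
    have h3 : β / 2 ≤ t * Real.exp (β * (t - s)) - s := by
      have h4 : t * (β * (t - s) + 1) ≤ t * Real.exp (β * (t - s)) :=
        mul_le_mul_of_nonneg_left h2 ht0.le
      have h5 : (t - s) * (t + s) = 1 := by nlinarith
      have h6 : β / 2 ≤ β * (t * (t - s)) := by
        have : (1 : ℝ) / 2 ≤ t * (t - s) := by nlinarith
        nlinarith
      nlinarith
    have h4 : Real.exp (β * s) ≤ 2 / β * (t * Real.exp (β * t) - s * Real.exp (β * s)) := by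
      rw [h1, div_mul_eq_mul_div, le_div_iff₀ hβ]
      have := mul_le_mul_of_nonneg_left h3 hE.le
      nlinarith
    calc _ ≤ 2 / β * (s * Real.exp (β * s)) + 2 / β * (t * Real.exp (β * t) - s * Real.exp (β * s)) :=
          add_le_add ih h4
      _ = _ := by ring

theorem nrm_le (m n : ℕ) (hm : 0 < m) : nrm m n ≤ 2 ^ n := by
  have h1 : moment m n ≤ (2 ^ n) ^ m := by
    unfold moment
    have h2 : ∫ u, (adder u n : ℝ) ^ m ∂law ≤ ∫ _u : Om, ((2 : ℝ) ^ n) ^ m ∂law := by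
      refine integral_mono (int_pow m n) (integrable_const _) fun u => ?_
      have h3 : (adder u n : ℝ) ≤ 2 ^ n := by exact_mod_cast adder_bound u n
      exact pow_le_pow_left₀ (by positivity) h3 m
    simpa using h2
  rw [← nrm_pow m n hm] at h1
  exact le_of_pow_le_pow_left₀ hm.ne' (by positivity) h1

/-- the averaged comparison function -/
theorem avg_le (m : ℕ) (hm : 0 < m) (c : ℝ) (hc : 0 < c) (n : ℕ) (E : ℕ → ℝ)
    (hE : ∀ i, E i = Real.exp (c / m * Real.sqrt i)) :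
    (1 / ((n : ℝ) + 1)) * ∑ i ∈ Finset.range (n + 1), (E n + E i) ^ m ≤
      E n ^ m + E (n + 1) ^ m * (2 * SS m * m / c / Real.sqrt ((n : ℝ) + 1)) := by
  have hE0 : ∀ i, 0 < E i := fun i => by rw [hE]; exact Real.exp_pos _
  have hEm : E n ≤ E (n + 1) := by
    rw [hE, hE]
    refine Real.exp_le_exp.2 (mul_le_mul_of_nonneg_left (Real.sqrt_le_sqrt ?_) (by positivity))
    push_cast; linarith
  have hm' : (0 : ℝ) < m := by exact_mod_cast hm
  have hn : (0 : ℝ) < (n : ℝ) + 1 := by positivity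
  have hbin : ∀ i, (E n + E i) ^ m = E n ^ m +
      ∑ j ∈ Finset.range m, ((m.choose (j + 1) : ℕ) : ℝ) * (E n ^ (m - (j + 1)) * E i ^ (j + 1)) := by
    intro i
    rw [add_comm (E n) (E i), add_pow, Finset.sum_range_succ']
    simp only [pow_zero, Nat.sub_zero, one_mul, Nat.choose_zero_right, Nat.cast_one, mul_one]
    rw [add_comm]
    congr 1
    refine Finset.sum_congr rfl fun j _ => ?_
    ring
  rw [Finset.sum_congr rfl fun i _ => hbin i, Finset.sum_add_distrib, Finset.sum_const,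
    Finset.card_range, nsmul_eq_mul, Finset.sum_comm, mul_add]
  refine add_le_add (le_of_eq ?_) ?_
  · push_cast
    field_simp
  · rw [Finset.mul_sum]
    have h1 : ∀ j ∈ Finset.range m, (1 / ((n : ℝ) + 1)) * (∑ i ∈ Finset.range (n + 1),
        ((m.choose (j + 1) : ℕ) : ℝ) * (E n ^ (m - (j + 1)) * E i ^ (j + 1))) ≤
        E (n + 1) ^ m * (2 * m / c / Real.sqrt ((n : ℝ) + 1)) *
          (((m.choose (j + 1) : ℕ) : ℝ) / ((j : ℝ) + 1)) := by
      intro j hj
      have hj' := Finset.mem_range.1 hj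
      have hjp : (0 : ℝ) < (j : ℝ) + 1 := by positivity
      rw [← Finset.mul_sum, ← Finset.mul_sum]
      have h2 : ∑ i ∈ Finset.range (n + 1), E i ^ (j + 1) ≤
          2 / (((j : ℝ) + 1) * (c / m)) * (Real.sqrt ((n : ℝ) + 1) * E (n + 1) ^ (j + 1)) := by
        have h3 := sum_exp_sqrt (((j : ℝ) + 1) * (c / m)) (by positivity) n
        have h4 : ∀ i : ℕ, E i ^ (j + 1) = Real.exp ((((j : ℝ) + 1) * (c / m)) * Real.sqrt i) := by
          intro i
          rw [hE, ← Real.exp_nat_mul]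
          congr 1
          push_cast
          ring
        rw [Finset.sum_congr rfl fun i _ => h4 i, h4 (n + 1)]
        push_cast
        exact h3
      have h5 : E n ^ (m - (j + 1)) ≤ E (n + 1) ^ (m - (j + 1)) := pow_le_pow_left₀ (hE0 n).le hEm _
      have h6 : E n ^ (m - (j + 1)) * ∑ i ∈ Finset.range (n + 1), E i ^ (j + 1) ≤
          E (n + 1) ^ (m - (j + 1)) *
          (2 / (((j : ℝ) + 1) * (c / m)) * (Real.sqrt ((n : ℝ) + 1) * E (n + 1) ^ (j + 1))) :=
        mul_le_mul h5 h2 (Finset.sum_nonneg fun i _ => pow_nonneg (hE0 i).le _)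
          (pow_nonneg (hE0 _).le _)
      have h7 : E (n + 1) ^ m = E (n + 1) ^ (m - (j + 1)) * E (n + 1) ^ (j + 1) := by
        rw [← pow_add]; congr 1; omega
      have hsq : Real.sqrt ((n : ℝ) + 1) ^ 2 = (n : ℝ) + 1 := Real.sq_sqrt hn.le
      have hsp : 0 < Real.sqrt ((n : ℝ) + 1) := Real.sqrt_pos.2 hn
      calc _ ≤ (1 / ((n : ℝ) + 1)) * (((m.choose (j + 1) : ℕ) : ℝ) * (E (n + 1) ^ (m - (j + 1)) *
          (2 / (((j : ℝ) + 1) * (c / m)) * (Real.sqrt ((n : ℝ) + 1) * E (n + 1) ^ (j + 1))))) :=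
            mul_le_mul_of_nonneg_left (mul_le_mul_of_nonneg_left h6 (by positivity)) (by positivity)
        _ = (1 / (Real.sqrt ((n : ℝ) + 1) ^ 2)) * (((m.choose (j + 1) : ℕ) : ℝ) * (E (n + 1) ^ (m - (j + 1)) *
          (2 / (((j : ℝ) + 1) * (c / m)) * (Real.sqrt ((n : ℝ) + 1) * E (n + 1) ^ (j + 1))))) := by
            rw [hsq]
        _ = _ := by
            rw [h7]
            field_simp
    refine (Finset.sum_le_sum h1).trans (le_of_eq ?_)
    rw [← Finset.mul_sum]
    unfold SS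
    ring

theorem exp_neg_le (x : ℝ) (hx : 0 ≤ x) : Real.exp (-x) ≤ 1 - x + x ^ 2 / 2 := by
  rw [Real.exp_neg, inv_le_comm₀ (Real.exp_pos _) (by nlinarith [sq_nonneg (x - 1)])]
  have h1 := Real.quadratic_le_exp_of_nonneg hx
  refine le_trans ?_ h1
  rw [inv_le_iff_one_le_mul₀ (by nlinarith [sq_nonneg (x - 1)])]
  nlinarith [sq_nonneg (x ^ 2)]

/-- the comparison function is an eventual supersolution -/
theorem super_sol (m : ℕ) (hm : 0 < m) (c : ℝ) (hc : 0 < c) (hcS : 4 * m * SS m < c ^ 2) (n : ℕ)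
    (hn : c ^ 4 / (4 * (c ^ 2 - 4 * m * SS m)) ≤ c * Real.sqrt ((n : ℝ) + 1)) (E : ℕ → ℝ)
    (hE : ∀ i, E i = Real.exp (c / m * Real.sqrt i)) :
    E n ^ m + E (n + 1) ^ m * (2 * SS m * m / c / Real.sqrt ((n : ℝ) + 1)) ≤ E (n + 1) ^ m := by
  have hm' : (0 : ℝ) < m := by exact_mod_cast hm
  have hn1 : (0 : ℝ) < (n : ℝ) + 1 := by positivity
  set t := Real.sqrt ((n : ℝ) + 1) with ht
  set s := Real.sqrt (n : ℝ) with hs
  have ht2 : t ^ 2 = (n : ℝ) + 1 := Real.sq_sqrt hn1.le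
  have hs2 : s ^ 2 = (n : ℝ) := Real.sq_sqrt (by positivity)
  have ht0 : 0 < t := Real.sqrt_pos.2 hn1
  have hs0 : 0 ≤ s := Real.sqrt_nonneg _
  have hst : s ≤ t := Real.sqrt_le_sqrt (by linarith)
  have hE1 : E n ^ m = Real.exp (c * s) := by
    rw [hE, ← Real.exp_nat_mul]; congr 1; field_simp; rfl
  have hE2 : E (n + 1) ^ m = Real.exp (c * t) := by
    rw [hE, ← Real.exp_nat_mul]; congr 1; push_cast; field_simp; rfl
  rw [hE1, hE2]
  have h1 : c / (2 * t) ≤ c * (t - s) := by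
    rw [div_le_iff₀ (by positivity)]
    have : (t - s) * (t + s) = 1 := by nlinarith
    have h2 : 1 ≤ (t - s) * (2 * t) := by nlinarith
    nlinarith
  have h2 : Real.exp (c * s) ≤ Real.exp (c * t) * (1 - c / (2 * t) + (c / (2 * t)) ^ 2 / 2) := by
    have h3 : Real.exp (c * s) = Real.exp (c * t) * Real.exp (-(c * (t - s))) := by
      rw [← Real.exp_add]; congr 1; ring
    rw [h3]
    refine mul_le_mul_of_nonneg_left ?_ (Real.exp_pos _).le
    refine le_trans (Real.exp_le_exp.2 (neg_le_neg h1)) (exp_neg_le _ (by positivity))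
  have h3 : (1 - c / (2 * t) + (c / (2 * t)) ^ 2 / 2) + 2 * SS m * m / c / t ≤ 1 := by
    have hd : 0 < c ^ 2 - 4 * m * SS m := by linarith
    rw [div_le_iff₀ (by positivity)] at hn
    have h4 : (c / (2 * t)) ^ 2 / 2 + 2 * SS m * m / c / t - c / (2 * t) =
        (c ^ 4 - 4 * (c ^ 2 - 4 * m * SS m) * (c * t)) / (8 * c ^ 2 * t ^ 2) + (0 : ℝ) := by
      field_simp
      ring
    have h5 : (c ^ 4 - 4 * (c ^ 2 - 4 * m * SS m) * (c * t)) / (8 * c ^ 2 * t ^ 2) ≤ 0 := by
      refine div_nonpos_of_nonpos_of_nonneg ?_ (by positivity)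
      nlinarith
    linarith
  nlinarith [mul_le_mul_of_nonneg_left h3 (Real.exp_pos (c * t)).le, h2]

theorem nrm_bound (m : ℕ) (hm : 0 < m) (c : ℝ) (hc : 0 < c) (hcS : 4 * m * SS m < c ^ 2) :
    ∃ κ : ℝ, 1 ≤ κ ∧ ∀ n : ℕ, nrm m n ≤ κ * Real.exp (c / m * Real.sqrt n) := by
  obtain ⟨N, hN⟩ : ∃ N : ℕ, ∀ n : ℕ, N ≤ n →
      c ^ 4 / (4 * (c ^ 2 - 4 * m * SS m)) ≤ c * Real.sqrt ((n : ℝ) + 1) := by
    have h1 : Tendsto (fun n : ℕ => c * Real.sqrt ((n : ℝ) + 1)) atTop atTop := by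
      refine Tendsto.const_mul_atTop hc ?_
      exact Real.tendsto_sqrt_atTop.comp
        (tendsto_atTop_add_const_right _ _ tendsto_natCast_atTop_atTop)
    obtain ⟨N, hN⟩ := (h1.eventually_ge_atTop (c ^ 4 / (4 * (c ^ 2 - 4 * m * SS m)))).exists_forall_of_atTop
    exact ⟨N, hN⟩
  refine ⟨2 ^ N, one_le_pow₀ (by norm_num), ?_⟩
  intro n
  have hm' : (0 : ℝ) < m := by exact_mod_cast hm
  set E : ℕ → ℝ := fun i => Real.exp (c / m * Real.sqrt i) with hEdef
  have hE0 : ∀ i, 1 ≤ E i := fun i => Real.one_le_exp (by positivity)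
  have hκ : (0 : ℝ) < 2 ^ N := by positivity
  induction n using Nat.strong_induction_on with
  | _ n ih =>
    by_cases hnN : n ≤ N
    · calc nrm m n ≤ 2 ^ n := nrm_le m n hm
        _ ≤ 2 ^ N := pow_le_pow_right₀ (by norm_num) hnN
        _ = 2 ^ N * 1 := (mul_one _).symm
        _ ≤ _ := mul_le_mul_of_nonneg_left (hE0 n) hκ.le
    · obtain ⟨k, rfl⟩ : ∃ k, n = k + 1 := ⟨n - 1, by omega⟩
      have hkN : N ≤ k := by omega
      have h1 := moment_upper m k hm
      have h2 : ∀ i ∈ Finset.range (k + 1), (nrm m k + nrm m i) ^ m ≤ (2 ^ N) ^ m * (E k + E i) ^ m := by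
        intro i hi
        have hi' := Finset.mem_range.1 hi
        rw [← mul_pow]
        refine pow_le_pow_left₀ (add_nonneg (nrm_nonneg _ _) (nrm_nonneg _ _)) ?_ m
        have a1 := ih k (by omega)
        have a2 := ih i (by omega)
        rw [mul_add]
        exact add_le_add a1 a2
      have h3 : nrm m (k + 1) ^ m ≤ ((2 ^ N) * E (k + 1)) ^ m := by
        refine h1.trans ?_
        have h4 := mul_le_mul_of_nonneg_left (Finset.sum_le_sum h2)
          (by positivity : 0 ≤ 1 / ((k : ℝ) + 1))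
        rw [← Finset.mul_sum] at h4
        refine h4.trans ?_
        have h5 := avg_le m hm c hc k E (fun i => rfl)
        have h6 := super_sol m hm c hc hcS k (hN k hkN) E (fun i => rfl)
        have h7 := mul_le_mul_of_nonneg_left (h5.trans h6) (by positivity : (0 : ℝ) ≤ (2 ^ N) ^ m)
        rw [mul_pow]
        calc _ = (2 ^ N : ℝ) ^ m * (1 / ((k : ℝ) + 1) * ∑ i ∈ Finset.range (k + 1), (E k + E i) ^ m) := by ring
          _ ≤ _ := h7
      exact le_of_pow_le_pow_left₀ hm.ne' (by have := hE0 (k + 1); positivity) h3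

theorem SS_pos (m : ℕ) (hm : 0 < m) : 0 < SS m := by
  unfold SS
  refine Finset.sum_pos (fun j hj => ?_) ⟨0, Finset.mem_range.2 hm⟩
  have := Nat.choose_pos (Nat.succ_le_of_lt (Finset.mem_range.1 hj))
  positivity

/-- the upper bound for the growth constant -/
theorem upper_main (m : ℕ) (hm : 0 < m) (c : ℝ) (hc : 2 * Real.sqrt (m * SS m) < c) :
    ∀ᶠ n : ℕ in atTop, Real.log (moment m n) / Real.sqrt n ≤ c := by
  have hS := SS_pos m hm
  have hm' : (0 : ℝ) < m := by exact_mod_cast hm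
  obtain ⟨c', hc1, hc2⟩ := exists_between hc
  have hc0 : 0 < c' := lt_of_le_of_lt (by positivity) hc1
  have hsq : 4 * m * SS m < c' ^ 2 := by
    have h1 : (2 * Real.sqrt (m * SS m)) ^ 2 < c' ^ 2 :=
      pow_lt_pow_left₀ hc1 (by positivity) (by norm_num)
    rw [mul_pow, Real.sq_sqrt (by positivity)] at h1
    linarith
  obtain ⟨κ, hκ, hb⟩ := nrm_bound m hm c' hc0 hsq
  have hs : Tendsto (fun n : ℕ => Real.sqrt (n : ℝ)) atTop atTop :=
    Real.tendsto_sqrt_atTop.comp tendsto_natCast_atTop_atTop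
  have h2 : Tendsto (fun n : ℕ => m * Real.log κ / Real.sqrt n + c') atTop (𝓝 (0 + c')) :=
    (hs.const_div_atTop (m * Real.log κ)).add tendsto_const_nhds
  rw [zero_add] at h2
  filter_upwards [h2.eventually (gt_mem_nhds hc2), eventually_gt_atTop 0] with n hn hn0
  refine le_trans ?_ hn.le
  have hp : 0 < Real.sqrt (n : ℝ) := Real.sqrt_pos.2 (by exact_mod_cast hn0)
  rw [div_le_iff₀ hp]
  have h3 : moment m n ≤ (κ * Real.exp (c' / m * Real.sqrt n)) ^ m := by
    rw [← nrm_pow m n hm]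
    exact pow_le_pow_left₀ (nrm_nonneg _ _) (hb n) m
  have h4 := Real.log_le_log (by have := moment_ge_one m n; linarith) h3
  rw [Real.log_pow, Real.log_mul (by positivity) (Real.exp_pos _).ne', Real.log_exp] at h4
  refine h4.trans (le_of_eq ?_)
  field_simp

end Pool.Agent.X145.Ulam
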